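import Pool.Agent.W983.PL.Stm

/-!
# MP_fe6d1a_gt, part VF: laminations all of whose unseparated sets are finite are very full
-/
set_option autoImplicit false
open Set Topology

namespace Pool.Agent.W805.PCVF

open Pool.Agent.W983.PL

lemma continuous_area (a b : ℂ) : Continuous (fun w => area a b w) := by
  unfold area
  fun_prop

lemma area_combo (a b w z : ℂ) (s t : ℝ) (h : s + t = 1) :
    area a b (s • w + t • z) = s * area a b w + t * area a b z := by
  unfold area
  have ht : t = 1 - s := by linarith
  subst ht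
  simp
  ring

lemma continuous_coe : Continuous (fun a : Circle => (a : ℂ)) := by
  fun_prop

lemma circle_sq (a : Circle) : (a : ℂ).re ^ 2 + (a : ℂ).im ^ 2 = 1 := by
  have := Circle.normSq_coe a
  rw [Complex.normSq_apply] at this
  nlinarith

lemma ball_sq {z : ℂ} (hz : ‖z‖ < 1) : z.re ^ 2 + z.im ^ 2 < 1 := by
  have h := Complex.sq_norm z
  rw [Complex.normSq_apply] at h
  have : ‖z‖ ^ 2 < 1 := by
    have := norm_nonneg z
    nlinarith
  nlinarith

/-- a point of the open disc on the line of a chord lies on the open chord -/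
lemma mem_chord (a b : Circle) (hab : a ≠ b) (w : ℂ) (hw : ‖w‖ < 1) (h : area a b w = 0) :
    w ∈ openSegment ℝ (a : ℂ) (b : ℂ) := by
  have ha := circle_sq a
  have hb := circle_sq b
  have hw' := ball_sq hw
  unfold area at h
  set D : ℝ := ((b : ℂ).re - (a : ℂ).re) ^ 2 + ((b : ℂ).im - (a : ℂ).im) ^ 2 with hD
  have hD0 : 0 < D := by
    by_contra hcon
    have g1 := sq_nonneg ((b : ℂ).re - (a : ℂ).re)
    have g2 := sq_nonneg ((b : ℂ).im - (a : ℂ).im)
    have h1 : ((b : ℂ).re - (a : ℂ).re) ^ 2 = 0 := by linarith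
    have h2 : ((b : ℂ).im - (a : ℂ).im) ^ 2 = 0 := by linarith
    have h3 := pow_eq_zero_iff (two_ne_zero) |>.1 h1
    have h4 := pow_eq_zero_iff (two_ne_zero) |>.1 h2
    apply hab
    apply Circle.ext
    apply Complex.ext
    · linarith
    · linarith
  set t : ℝ := ((w.re - (a : ℂ).re) * ((b : ℂ).re - (a : ℂ).re) +
    (w.im - (a : ℂ).im) * ((b : ℂ).im - (a : ℂ).im)) / D with ht
  have htD : t * D = (w.re - (a : ℂ).re) * ((b : ℂ).re - (a : ℂ).re) +
    (w.im - (a : ℂ).im) * ((b : ℂ).im - (a : ℂ).im) := by
    rw [ht]; field_simp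
  have e1 : w.re - (a : ℂ).re = t * ((b : ℂ).re - (a : ℂ).re) := by
    have : (w.re - (a : ℂ).re) * D = t * ((b : ℂ).re - (a : ℂ).re) * D := by
      have : t * ((b : ℂ).re - (a : ℂ).re) * D = (t * D) * ((b : ℂ).re - (a : ℂ).re) := by ring
      rw [this, htD, hD]
      linear_combination -((b : ℂ).im - (a : ℂ).im) * h
    exact mul_right_cancel₀ hD0.ne' this
  have e2 : w.im - (a : ℂ).im = t * ((b : ℂ).im - (a : ℂ).im) := by
    have : (w.im - (a : ℂ).im) * D = t * ((b : ℂ).im - (a : ℂ).im) * D := by
      have : t * ((b : ℂ).im - (a : ℂ).im) * D = (t * D) * ((b : ℂ).im - (a : ℂ).im) := by ring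
      rw [this, htD, hD]
      linear_combination ((b : ℂ).re - (a : ℂ).re) * h
    exact mul_right_cancel₀ hD0.ne' this
  have e3 : w.re ^ 2 + w.im ^ 2 = 1 - t * (1 - t) * D := by
    have h1 : w.re = (a : ℂ).re + t * ((b : ℂ).re - (a : ℂ).re) := by linarith
    have h2 : w.im = (a : ℂ).im + t * ((b : ℂ).im - (a : ℂ).im) := by linarith
    rw [h1, h2, hD]
    linear_combination (1 - t) * ha + t * hb
  have h5 : 0 < t * (1 - t) := by
    by_contra hcon
    push Not at hcon
    have : t * (1 - t) * D ≤ 0 := mul_nonpos_of_nonpos_of_nonneg hcon hD0.le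
    linarith
  have h6 : 0 < t := by
    by_contra hcon
    push Not at hcon
    nlinarith
  have h7 : t < 1 := by
    by_contra hcon
    push Not at hcon
    nlinarith
  refine ⟨1 - t, t, by linarith, h6, by ring, ?_⟩
  apply Complex.ext
  · simp
    linarith
  · simp
    linarith

lemma area_chord (a b : Circle) (w : ℂ) (hw : w ∈ openSegment ℝ (a : ℂ) (b : ℂ)) :
    area a b w = 0 := by
  obtain ⟨s, t, -, -, hst, rfl⟩ := hw
  rw [area_combo _ _ _ _ _ _ hst, area_self]
  have : area (a : ℂ) b a = 0 := by unfold area; ring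
  rw [this]
  ring

/-- the complement of the leaves is open -/
lemma isOpen_complementary (Λ : Set (Circle × Circle)) (hΛ : IsLamination Λ) :
    IsOpen (complementary Λ) := by
  let φ : (Circle × Circle) × ℝ → ℂ := fun p => (1 - p.2) • (p.1.1 : ℂ) + p.2 • (p.1.2 : ℂ)
  have hφ : Continuous φ := by
    have h1 : Continuous (fun p : (Circle × Circle) × ℝ => (p.1.1 : ℂ)) :=
      continuous_coe.comp (continuous_fst.comp continuous_fst)
    have h2 : Continuous (fun p : (Circle × Circle) × ℝ => (p.1.2 : ℂ)) :=
      continuous_coe.comp (continuous_snd.comp continuous_fst)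
    exact ((continuous_const.sub continuous_snd).smul h1).add (continuous_snd.smul h2)
  have hc : IsCompact (closure Λ ×ˢ Icc (0 : ℝ) 1) :=
    (isClosed_closure.isCompact).prod isCompact_Icc
  have hcl : IsClosed (φ '' (closure Λ ×ˢ Icc (0 : ℝ) 1)) := (hc.image hφ).isClosed
  have heq : complementary Λ = Metric.ball (0 : ℂ) 1 ∩ (φ '' (closure Λ ×ˢ Icc (0 : ℝ) 1))ᶜ := by
    ext w
    unfold complementary
    rw [mem_diff, mem_inter_iff, mem_compl_iff]
    refine and_congr_right fun hw => not_congr ?_
    rw [mem_ball_zero_iff] at hw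
    constructor
    · intro h
      rw [mem_iUnion₂] at h
      obtain ⟨l, hl, s, t, hs, ht, hst, hw'⟩ := h
      refine ⟨(l, t), ⟨subset_closure hl, ht.le, by linarith⟩, ?_⟩
      have : (1 - t) = s := by linarith
      simp only [φ]
      rw [this]
      exact hw'
    · rintro ⟨⟨⟨a, b⟩, t⟩, ⟨hab, ht⟩, hw'⟩
      simp only [φ] at hw'
      have ht0 := ht.1
      have ht1 := ht.2
      simp only at hab ht0 ht1
      have hne : a ≠ b := by
        rintro rfl
        have : w = (a : ℂ) := by rw [← hw', ← add_smul]; simp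
        rw [this, Circle.norm_coe] at hw
        exact lt_irrefl _ hw
      have h0 : t ≠ 0 := by
        rintro rfl
        have : w = (a : ℂ) := by rw [← hw']; simp
        rw [this, Circle.norm_coe] at hw
        exact lt_irrefl _ hw
      have h1 : t ≠ 1 := by
        rintro rfl
        have : w = (b : ℂ) := by rw [← hw']; simp
        rw [this, Circle.norm_coe] at hw
        exact lt_irrefl _ hw
      rw [mem_iUnion₂]
      refine ⟨(a, b), hΛ.closed a b hne hab, 1 - t, t, ?_, ?_, by ring, hw'⟩
      · have := lt_of_le_of_ne ht1 h1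
        linarith
      · exact lt_of_le_of_ne ht0 h0.symm
  rw [heq]
  exact Metric.isOpen_ball.inter hcl.isOpen_compl

theorem vf : S_VF := by
  intro Λ hΛ hfin z hz
  have hzb : ‖z‖ < 1 := by
    have := hz.1
    rwa [mem_ball_zero_iff] at this
  -- the side functions do not vanish on the complement
  have hne : ∀ w ∈ complementary Λ, ∀ l ∈ Λ, area l.1 l.2 w ≠ 0 := by
    intro w hw l hl h0
    have h1 := hw.1
    rw [mem_ball_zero_iff] at h1
    exact hw.2 (mem_iUnion₂.2 ⟨l, hl, mem_chord l.1 l.2 (hΛ.ne l.1 l.2 hl) w h1 h0⟩)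
  set K : Set ℂ := {w | ‖w‖ < 1 ∧ ∀ l ∈ Λ, 0 < area l.1 l.2 z * area l.1 l.2 w} with hK
  set Kb : Set ℂ := {w | ‖w‖ ≤ 1 ∧ ∀ l ∈ Λ, 0 ≤ area l.1 l.2 z * area l.1 l.2 w} with hKb
  have hzK : z ∈ K := by
    refine ⟨hzb, fun l hl => ?_⟩
    exact mul_self_pos.2 (hne z hz l hl)
  have hconvK : Convex ℝ K := by
    intro x hx y hy s t hs ht hst
    refine ⟨?_, fun l hl => ?_⟩
    · have := (convex_ball (0 : ℂ) 1) (mem_ball_zero_iff.2 hx.1) (mem_ball_zero_iff.2 hy.1) hs ht hst
      rwa [mem_ball_zero_iff] at this
    · rw [area_combo _ _ _ _ _ _ hst]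
      have h1 := hx.2 l hl
      have h2 := hy.2 l hl
      have h3 : area l.1 l.2 z * (s * area l.1 l.2 x + t * area l.1 l.2 y) =
        s * (area l.1 l.2 z * area l.1 l.2 x) + t * (area l.1 l.2 z * area l.1 l.2 y) := by ring
      rw [h3]
      rcases hs.eq_or_lt with h | h
      · have : t = 1 := by linarith
        rw [← h, this]
        linarith
      · have h4 := mul_pos h h1
        have h5 := mul_nonneg ht h2.le
        linarith
  have hconvKb : Convex ℝ Kb := by
    intro x hx y hy s t hs ht hst
    refine ⟨?_, fun l hl => ?_⟩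
    · have := (convex_closedBall (0 : ℂ) 1) (mem_closedBall_zero_iff.2 hx.1)
        (mem_closedBall_zero_iff.2 hy.1) hs ht hst
      rwa [mem_closedBall_zero_iff] at this
    · rw [area_combo _ _ _ _ _ _ hst]
      have h1 := hx.2 l hl
      have h2 := hy.2 l hl
      have h3 : area l.1 l.2 z * (s * area l.1 l.2 x + t * area l.1 l.2 y) =
        s * (area l.1 l.2 z * area l.1 l.2 x) + t * (area l.1 l.2 z * area l.1 l.2 y) := by ring
      rw [h3]
      have h4 := mul_nonneg hs h1
      have h5 := mul_nonneg ht h2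
      linarith
  have hclosedKb : IsClosed Kb := by
    have : Kb = Metric.closedBall (0 : ℂ) 1 ∩ ⋂ l ∈ Λ, {w | 0 ≤ area l.1 l.2 z * area l.1 l.2 w} := by
      ext w
      simp only [hKb, mem_setOf_eq, mem_inter_iff, mem_closedBall_zero_iff, mem_iInter]
    rw [this]
    refine Metric.isClosed_closedBall.inter (isClosed_biInter fun l _ => ?_)
    exact isClosed_le continuous_const (continuous_const.mul (continuous_area _ _))
  have hKKb : K ⊆ Kb := fun w hw => ⟨hw.1.le, fun l hl => (hw.2 l hl).le⟩
  -- the closure of `K`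
  have hclK : closure K = Kb := by
    refine subset_antisymm (closure_minimal hKKb hclosedKb) fun f hf => ?_
    have hmem : ∀ s : ℝ, 0 < s → s ≤ 1 → (1 - s) • f + s • z ∈ K := by
      intro s hs hs1
      refine ⟨?_, fun l hl => ?_⟩
      · calc ‖(1 - s) • f + s • z‖ ≤ ‖(1 - s) • f‖ + ‖s • z‖ := norm_add_le _ _
          _ = (1 - s) * ‖f‖ + s * ‖z‖ := by
            rw [norm_smul, norm_smul, Real.norm_of_nonneg (by linarith),
              Real.norm_of_nonneg hs.le]
          _ < 1 := by
            have h1 : (1 - s) * ‖f‖ ≤ (1 - s) * 1 := mul_le_mul_of_nonneg_left hf.1 (by linarith)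
            have h2 : s * ‖z‖ < s * 1 := mul_lt_mul_of_pos_left hzb hs
            linarith
      · rw [area_combo _ _ _ _ _ _ (by ring)]
        have h1 := hf.2 l hl
        have h2 := hzK.2 l hl
        have h3 : area l.1 l.2 z * ((1 - s) * area l.1 l.2 f + s * area l.1 l.2 z) =
          (1 - s) * (area l.1 l.2 z * area l.1 l.2 f) + s * (area l.1 l.2 z * area l.1 l.2 z) := by
          ring
        rw [h3]
        have h4 := mul_nonneg (show 0 ≤ 1 - s by linarith) h1
        have h5 := mul_pos hs h2
        linarith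
    have hlim : Filter.Tendsto (fun n : ℕ => (1 - 1 / ((n : ℝ) + 1)) • f + (1 / ((n : ℝ) + 1)) • z)
        Filter.atTop (𝓝 ((1 - 0 : ℝ) • f + (0 : ℝ) • z)) := by
      have h0 := tendsto_one_div_add_atTop_nhds_zero_nat (𝕜 := ℝ)
      exact ((tendsto_const_nhds.sub h0).smul_const f).add (h0.smul_const z)
    have h1 : (1 - 0 : ℝ) • f + (0 : ℝ) • z = f := by simp
    rw [h1] at hlim
    refine mem_closure_of_tendsto hlim (Filter.Eventually.of_forall fun n => hmem _ (by positivity) ?_)
    rw [div_le_one (by positivity)]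
    have : (0 : ℝ) ≤ n := Nat.cast_nonneg n
    linarith
  -- the component is `K`
  set C := connectedComponentIn (complementary Λ) z with hC
  have hzC : z ∈ C := mem_connectedComponentIn hz
  have hCopen : IsOpen C := (isOpen_complementary Λ hΛ).connectedComponentIn
  have hKC : K ⊆ C := by
    refine hconvK.isPreconnected.subset_connectedComponentIn hzK fun w hw => ⟨?_, fun hcon => ?_⟩
    · rw [mem_ball_zero_iff]; exact hw.1
    · obtain ⟨l, hl, hw'⟩ := mem_iUnion₂.1 hcon
      have := hw.2 l hl
      rw [area_chord _ _ _ hw', mul_zero] at this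
      exact lt_irrefl _ this
  have hCK : C ⊆ K := by
    intro w hw
    have hwU := connectedComponentIn_subset _ _ hw
    refine ⟨?_, fun l hl => ?_⟩
    · have := hwU.1
      rwa [mem_ball_zero_iff] at this
    · by_contra hcon
      push Not at hcon
      have hpre : IsPreconnected C := isPreconnected_connectedComponentIn
      have himg := (hpre.image (fun w => area l.1 l.2 z * area l.1 l.2 w)
        ((continuous_const.mul (continuous_area _ _)).continuousOn)).ordConnected
      have h0 : (0 : ℝ) ∈ (fun w => area l.1 l.2 z * area l.1 l.2 w) '' C :=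
        himg.out ⟨w, hw, rfl⟩ ⟨z, hzC, rfl⟩ ⟨hcon, (hzK.2 l hl).le⟩
      obtain ⟨u, hu, hu0⟩ := h0
      have hu1 := hne u (connectedComponentIn_subset _ _ hu) l hl
      have hu2 := hne z hz l hl
      simp only at hu0
      rcases mul_eq_zero.1 hu0 with h | h
      · exact hu2 h
      · exact hu1 h
  have hCeq : C = K := subset_antisymm hCK hKC
  -- extreme points lie on the circle
  have hcomp : IsCompact Kb :=
    (isCompact_closedBall (0 : ℂ) 1).of_isClosed_subset hclosedKb fun w hw =>
      mem_closedBall_zero_iff.2 hw.1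
  have hext : ∀ e ∈ Kb.extremePoints ℝ, ‖e‖ = 1 := by
    intro e he
    by_contra hcon
    have he1 : ‖e‖ < 1 := lt_of_le_of_ne he.1.1 hcon
    by_cases hcase : ∀ l ∈ Λ, area l.1 l.2 e ≠ 0
    · -- `e ∈ K`, which is open
      have heK : e ∈ K := by
        refine ⟨he1, fun l hl => lt_of_le_of_ne (he.1.2 l hl) ?_⟩
        have h1 := hne z hz l hl
        have h2 := hcase l hl
        positivity
      rw [← hCeq] at heK
      obtain ⟨ε, hε, hball⟩ := Metric.isOpen_iff.1 hCopen e heK
      have h1 : e - (ε / 2 : ℝ) ∈ Kb := by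
        apply hKKb; rw [← hCeq]; apply hball
        rw [mem_ball_iff_norm]
        simp [abs_of_pos hε]
        linarith
      have h2 : e + (ε / 2 : ℝ) ∈ Kb := by
        apply hKKb; rw [← hCeq]; apply hball
        rw [mem_ball_iff_norm]
        simp [abs_of_pos hε]
        linarith
      have h3 := (mem_extremePoints.1 he).2 _ h1 _ h2
        ⟨1 / 2, 1 / 2, by norm_num, by norm_num, by norm_num, by
          apply Complex.ext <;> simp <;> ring⟩
      have h4 := congrArg Complex.re h3.1
      simp at h4
      linarith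
    · push Not at hcase
      obtain ⟨l, hl, h0⟩ := hcase
      have hseg := mem_chord l.1 l.2 (hΛ.ne l.1 l.2 hl) e he1 h0
      obtain ⟨s, t, hs, ht, hst, hest⟩ := hseg
      have hends : ∀ l' ∈ Λ, 0 ≤ area l'.1 l'.2 z * area l'.1 l'.2 l.1 ∧
          0 ≤ area l'.1 l'.2 z * area l'.1 l'.2 l.2 := by
        intro l' hl'
        have hnl := hΛ.unlinked l'.1 l'.2 l.1 l.2 hl' hl
        unfold Linked Ccw at hnl
        rw [area_swap l'.1 l'.2, area_swap l'.1 l'.2] at hnl
        have h1 := he.1.2 l' hl'
        rw [← hest, area_combo _ _ _ _ _ _ hst] at h1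
        generalize area (l'.1 : ℂ) l'.2 z = α at *
        generalize area (l'.1 : ℂ) l'.2 l.1 = β at *
        generalize area (l'.1 : ℂ) l'.2 l.2 = γ at *
        push Not at hnl
        obtain ⟨h2, h3⟩ := hnl
        have hβγ : 0 ≤ β * γ := by
          rcases lt_trichotomy β 0 with h | h | h
          · have : γ ≤ 0 := h3 (by linarith)
            exact mul_nonneg_of_nonpos_of_nonpos h.le this
          · rw [h]; simp
          · have := h2 h
            exact mul_nonneg h.le (by linarith)
        constructor
        · by_contra hc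
          push Not at hc
          -- α β < 0, then α γ ≤ 0
          have h4 : α * γ ≤ 0 := by
            by_contra hc2
            push Not at hc2
            have h5 : (α * β) * (α * γ) < 0 := mul_neg_of_neg_of_pos hc hc2
            have h6 : (α * β) * (α * γ) = α ^ 2 * (β * γ) := by ring
            rw [h6] at h5
            have := mul_nonneg (sq_nonneg α) hβγ
            linarith
          have h5 : α * (s * β + t * γ) = s * (α * β) + t * (α * γ) := by ring
          rw [h5] at h1
          have h6 := mul_neg_of_pos_of_neg hs hc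
          have h7 := mul_nonpos_of_nonneg_of_nonpos ht.le h4
          linarith
        · by_contra hc
          push Not at hc
          have h4 : α * β ≤ 0 := by
            by_contra hc2
            push Not at hc2
            have h5 : (α * β) * (α * γ) < 0 := mul_neg_of_pos_of_neg hc2 hc
            have h6 : (α * β) * (α * γ) = α ^ 2 * (β * γ) := by ring
            rw [h6] at h5
            have := mul_nonneg (sq_nonneg α) hβγ
            linarith
          have h5 : α * (s * β + t * γ) = s * (α * β) + t * (α * γ) := by ring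
          rw [h5] at h1
          have h6 := mul_neg_of_pos_of_neg ht hc
          have h7 := mul_nonpos_of_nonneg_of_nonpos hs.le h4
          linarith
      have ha : (l.1 : ℂ) ∈ Kb := ⟨(Circle.norm_coe _).le, fun l' hl' => (hends l' hl').1⟩
      have hb : (l.2 : ℂ) ∈ Kb := ⟨(Circle.norm_coe _).le, fun l' hl' => (hends l' hl').2⟩
      have h3 := (mem_extremePoints.1 he).2 _ ha _ hb ⟨s, t, hs, ht, hst, hest⟩
      rw [← h3.1, Circle.norm_coe] at he1
      exact lt_irrefl _ he1
  -- the vertices
  set V : Set Circle := {a | (a : ℂ) ∈ Kb} with hV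
  have hUns : Uns Λ V := by
    intro p hp
    have h1 := hne z hz p hp
    rcases lt_or_gt_of_ne h1 with h | h
    · left
      intro x hx hcc
      unfold Ccw at hcc
      have := hx.2 p hp
      have h2 := mul_neg_of_neg_of_pos h hcc
      linarith
    · right
      intro x hx hcc
      unfold Ccw at hcc
      rw [area_swap] at hcc
      have := hx.2 p hp
      have h2 := mul_neg_of_pos_of_neg h (show area (p.1 : ℂ) p.2 x < 0 by linarith)
      linarith
  have hVfin : V.Finite := hfin V hUns
  have hhull : Kb = convexHull ℝ ((fun a : Circle => (a : ℂ)) '' V) := by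
    apply subset_antisymm
    · rw [← closure_convexHull_extremePoints hcomp hconvKb]
      have h1 : Kb.extremePoints ℝ ⊆ (fun a : Circle => (a : ℂ)) '' V := by
        intro e he
        refine ⟨⟨e, mem_sphere_zero_iff_norm.2 (hext e he)⟩, ?_, rfl⟩
        exact he.1
      refine closure_minimal (convexHull_mono h1) ?_
      exact (hVfin.image _).isClosed_convexHull ℝ
    · refine convexHull_min ?_ hconvKb
      rintro _ ⟨a, ha, rfl⟩
      exact ha
  refine ⟨hVfin.toFinset, ?_, ?_⟩
  · -- at least three vertices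
    by_contra hcard
    have hzV := hKKb hzK
    rw [hhull] at hzV
    have hne' : V.Nonempty := by
      by_contra hcon
      rw [not_nonempty_iff_eq_empty] at hcon
      rw [hcon] at hzV
      simp at hzV
    obtain ⟨p, q, hpq⟩ : ∃ p q : Circle, V ⊆ {p, q} := by
      classical
      have h2 : hVfin.toFinset.card ≤ 2 := by omega
      interval_cases hc : hVfin.toFinset.card
      · rw [Finset.card_eq_zero] at hc
        rw [Set.Finite.toFinset_eq_empty] at hc
        rw [hc] at hne'
        simp at hne'
      · obtain ⟨p, hp⟩ := Finset.card_eq_one.1 hc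
        refine ⟨p, p, fun x hx => ?_⟩
        have : x ∈ hVfin.toFinset := hVfin.mem_toFinset.2 hx
        rw [hp] at this
        simp at this
        simp [this]
      · obtain ⟨p, q, -, hp⟩ := Finset.card_eq_two.1 hc
        refine ⟨p, q, fun x hx => ?_⟩
        have : x ∈ hVfin.toFinset := hVfin.mem_toFinset.2 hx
        rw [hp] at this
        simpa using this
    have hseg : Kb ⊆ segment ℝ (p : ℂ) (q : ℂ) := by
      rw [hhull, ← convexHull_pair]
      refine convexHull_mono ?_
      rintro _ ⟨a, ha, rfl⟩
      rcases hpq ha with h | h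
      · rw [h]; simp
      · rw [mem_singleton_iff] at h
        rw [h]; simp
    obtain ⟨ε, hε, hball⟩ := Metric.isOpen_iff.1 hCopen z hzC
    have hin : ∀ w : ℂ, ‖w - z‖ < ε → w ∈ segment ℝ (p : ℂ) (q : ℂ) := by
      intro w hw
      apply hseg; apply hKKb; rw [← hCeq]; apply hball
      rwa [mem_ball_iff_norm]
    obtain ⟨s0, t0, -, -, h0, e0⟩ := hin z (by simpa using hε)
    obtain ⟨s1, t1, -, -, h1, e1⟩ := hin (z + ((ε / 2 : ℝ) : ℂ)) (by
      simp [abs_of_pos hε]; linarith)
    obtain ⟨s2, t2, -, -, h2, e2⟩ := hin (z + ((ε / 2 : ℝ) : ℂ) * Complex.I) (by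
      simp [abs_of_pos hε]; linarith)
    have r0 := congrArg Complex.re e0
    have r1 := congrArg Complex.re e1
    have r2 := congrArg Complex.re e2
    have i0 := congrArg Complex.im e0
    have i1 := congrArg Complex.im e1
    have i2 := congrArg Complex.im e2
    simp at r0 r1 r2 i0 i1 i2
    have hs0 : s0 = 1 - t0 := by linarith
    have hs1 : s1 = 1 - t1 := by linarith
    have hs2 : s2 = 1 - t2 := by linarith
    subst hs0 hs1 hs2
    have k1 : (t1 - t0) * ((q : ℂ).re - (p : ℂ).re) = ε / 2 := by linarith
    have k2 : (t1 - t0) * ((q : ℂ).im - (p : ℂ).im) = 0 := by linarith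
    have k3 : (t2 - t0) * ((q : ℂ).im - (p : ℂ).im) = ε / 2 := by linarith
    rcases mul_eq_zero.1 k2 with h | h
    · rw [h, zero_mul] at k1; linarith
    · rw [h, mul_zero] at k3; linarith
  · rw [hCeq, hclK, hVfin.coe_toFinset]
    exact hhull

end Pool.Agent.W805.PCVF
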