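import Mathlib
import Pool.Agent.Helper421.CompactRes

set_option autoImplicit false

open Filter Topology Set
open scoped InnerProductSpace

namespace Pool.Agent.W805.DW

variable {H Y : Type} [NormedAddCommGroup H] [InnerProductSpace ℂ H] [CompleteSpace H]
  [NormedAddCommGroup Y] [InnerProductSpace ℂ Y] [CompleteSpace Y]

/-- `A` is nonnegative: `⟨A x, x⟩ ≥ 0` on the domain. -/
def Nonneg (A : H →ₗ.[ℂ] H) : Prop :=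
  ∀ x : A.domain, 0 ≤ (⟪A x, (x : H)⟫_ℂ).re

/-- `S = A^{1/2}`: `S` is nonnegative and self-adjoint and `S ∘ S = A`, with the natural domain
`{x ∈ D(S) : S x ∈ D(S)}` of `S ∘ S` being the domain of `A`. -/
structure IsSqrt (A S : H →ₗ.[ℂ] H) : Prop where
  selfAdjoint : IsSelfAdjoint S
  nonneg : Nonneg S
  mem_iff : ∀ x : H, x ∈ A.domain ↔ ∃ h : x ∈ S.domain, S ⟨x, h⟩ ∈ S.domain
  apply_eq : ∀ (x : H) (hx : x ∈ A.domain) (h : x ∈ S.domain) (h' : S ⟨x, h⟩ ∈ S.domain),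
    A ⟨x, hx⟩ = S ⟨S ⟨x, h⟩, h'⟩

/-- `u` is a solution on `[0,T]` of `u' + i A u = 0`, in the weak (equivalently: mild) sense:
`u` is continuous and `d/dt ⟨v, u(t)⟩ = - i ⟨A v, u(t)⟩` for all `v ∈ D(A)`. -/
def IsSchrodingerSol (A : H →ₗ.[ℂ] H) (T : ℝ) (u : ℝ → H) : Prop :=
  ContinuousOn u (Icc 0 T) ∧ ∀ v : A.domain, ∀ t ∈ Icc 0 T,
    HasDerivWithinAt (fun s => ⟪(v : H), u s⟫_ℂ) (-Complex.I * ⟪A v, u t⟫_ℂ) (Icc 0 T) t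

/-- The system `u' + i A u = 0`, `y = B^* u` is observable in time `T`. -/
def Observable (A : H →ₗ.[ℂ] H) (B : Y →L[ℂ] H) (T : ℝ) : Prop :=
  ∃ K : ℝ, 0 < K ∧ ∀ u : ℝ → H, IsSchrodingerSol A T u →
    ‖u 0‖ ^ 2 ≤ K * ∫ t in (0 : ℝ)..T, ‖ContinuousLinearMap.adjoint B (u t)‖ ^ 2

/-- `(u, v) : [0,∞) → D(A) × D(A^{1/2})` is a classical solution of the damped wave system,
`U = (u, v)` and `U' = 𝒜 U` in `ℋ = D(A^{1/2}) × H`, where `S = A^{1/2}`: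
`u' = v` in the norm of `D(A^{1/2})` and `v' = - A u - B B^* v` in `H`.
The values at negative times are irrelevant. -/
structure IsWaveSol (A S : H →ₗ.[ℂ] H) (B : Y →L[ℂ] H) (u v : ℝ → S.domain) : Prop where
  dom : ∀ t : ℝ, 0 ≤ t → (u t : H) ∈ A.domain
  du : ∀ t : ℝ, 0 ≤ t → HasDerivWithinAt (fun s => (u s : H)) (v t : H) (Ici 0) t
  dSu : ∀ t : ℝ, 0 ≤ t → HasDerivWithinAt (fun s => S (u s)) (S (v t)) (Ici 0) t
  dv : ∀ (t : ℝ) (ht : 0 ≤ t), HasDerivWithinAt (fun s => (v s : H))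
    (-(A ⟨(u t : H), dom t ht⟩) - B (ContinuousLinearMap.adjoint B (v t : H))) (Ici 0) t

/-- the seminorm `|(a,b)|_ℋ = (‖A^{1/2} a‖² + ‖b‖²)^{1/2}` -/
noncomputable def semi (S : H →ₗ.[ℂ] H) (a : S.domain) (b : H) : ℝ :=
  Real.sqrt (‖S a‖ ^ 2 + ‖b‖ ^ 2)

/-- the norm `‖(a,b)‖_ℋ = (‖(A+I)^{1/2} a‖² + ‖b‖²)^{1/2}`, where
`‖(A+I)^{1/2} a‖² = ‖A^{1/2} a‖² + ‖a‖²` -/
noncomputable def nrm (S : H →ₗ.[ℂ] H) (a : S.domain) (b : H) : ℝ :=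
  Real.sqrt (‖S a‖ ^ 2 + ‖(a : H)‖ ^ 2 + ‖b‖ ^ 2)

/-- the graph norm `‖U‖_{D(𝒜)} = ‖U‖_ℋ + ‖𝒜 U‖_ℋ` of `U = (a,b) ∈ D(𝒜) = D(A) × D(A^{1/2})`,
`𝒜 U = (b, -A a - B B^* b)` -/
noncomputable def graphNrm (A S : H →ₗ.[ℂ] H) (B : Y →L[ℂ] H) (a : S.domain)
    (ha : (a : H) ∈ A.domain) (b : S.domain) : ℝ :=
  nrm S a (b : H) + nrm S b (-(A ⟨(a : H), ha⟩) - B (ContinuousLinearMap.adjoint B (b : H)))

/-- The damped wave system is stable at rate `f`: for some `C`, every classical solution `U`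
satisfies `|U(t)|_ℋ ≤ C f(t) ‖U(0)‖_{D(𝒜)}` for all `t > 0`. -/
def StableAt (A S : H →ₗ.[ℂ] H) (B : Y →L[ℂ] H) (f : ℝ → ℝ) : Prop :=
  ∃ C : ℝ, ∀ (u v : ℝ → S.domain) (h : IsWaveSol A S B u v), ∀ t : ℝ, 0 < t →
    semi S (u t) (v t : H) ≤ C * f t * graphNrm A S B (u 0) (h.dom 0 le_rfl) (v 0)

end Pool.Agent.W805.DW
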