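import Pool.Agent.W805.DWDefs

set_option autoImplicit false

open Filter Topology Set
open scoped InnerProductSpace ENNReal

namespace Pool.Agent.W805.DW

/-- the Hilbert space `ℓ²(ι)` -/
noncomputable abbrev L2 (ι : Type) := lp (fun _ : ι => ℂ) 2

variable {ι : Type}

lemma memlp_iff (f : ι → ℂ) : Memℓp f 2 ↔ Summable (fun i => ‖f i‖ ^ 2) := by
  rw [memℓp_gen_iff (by norm_num)]
  simp

lemma summable_sq (x : L2 ι) : Summable (fun i => ‖x i‖ ^ 2) := (memlp_iff _).1 (lp.memℓp x)

lemma norm_sq (x : L2 ι) : ‖x‖ ^ 2 = ∑' i, ‖x i‖ ^ 2 := by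
  have := lp.norm_rpow_eq_tsum (p := 2) (by norm_num) x
  simpa using this

lemma norm_le_of_coord {x y : L2 ι} (h : ∀ i, ‖x i‖ ≤ ‖y i‖) : ‖x‖ ≤ ‖y‖ := by
  have h1 : ‖x‖ ^ 2 ≤ ‖y‖ ^ 2 := by
    rw [norm_sq, norm_sq]
    exact (summable_sq x).tsum_le_tsum (fun i => by gcongr; exact h i) (summable_sq y)
  exact (sq_le_sq₀ (norm_nonneg _) (norm_nonneg _)).1 h1

lemma norm_eq_of_coord {x y : L2 ι} (h : ∀ i, ‖x i‖ = ‖y i‖) : ‖x‖ = ‖y‖ :=
  le_antisymm (norm_le_of_coord fun i => (h i).le) (norm_le_of_coord fun i => (h i).ge)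

/-- the (in general unbounded) diagonal operator on `ℓ²(ι)` with real diagonal entries `d i` -/
noncomputable def dop (d : ι → ℝ) : L2 ι →ₗ.[ℂ] L2 ι where
  domain :=
    { carrier := {x | Memℓp (fun i => (d i : ℂ) * x i) 2}
      add_mem' := by
        intro x y hx hy
        have := hx.add hy
        simp only [mem_ofPred_eq] at *
        convert this using 2
        simp [mul_add]
      zero_mem' := by
        simp only [mem_ofPred_eq]
        convert (zero_memℓp : Memℓp (0 : ι → ℂ) 2) using 2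
        simp
      smul_mem' := by
        intro c x hx
        have := hx.const_smul c
        simp only [mem_ofPred_eq] at *
        convert this using 2
        simp
        ring }
  toFun :=
    { toFun := fun x => ⟨fun i => (d i : ℂ) * (x : L2 ι) i, x.2⟩
      map_add' := by
        intro x y
        ext i
        simp [mul_add]
      map_smul' := by
        intro c x
        ext i
        simp
        ring }

lemma mem_dop (d : ι → ℝ) (x : L2 ι) : x ∈ (dop d).domain ↔ Memℓp (fun i => (d i : ℂ) * x i) 2 :=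
  Iff.rfl

lemma dop_apply (d : ι → ℝ) (x : (dop d).domain) (i : ι) :
    (dop d x : L2 ι) i = (d i : ℂ) * (x : L2 ι) i := rfl

lemma mem_dop_of (d : ι → ℝ) (x y : L2 ι) (h : ∀ i, y i = (d i : ℂ) * x i) :
    x ∈ (dop d).domain := by
  rw [mem_dop]
  convert lp.memℓp y using 2
  rw [h]

variable [DecidableEq ι]

lemma single_mem (d : ι → ℝ) (i : ι) (a : ℂ) : (lp.single 2 i a : L2 ι) ∈ (dop d).domain := by
  apply mem_dop_of d _ (lp.single 2 i ((d i : ℂ) * a))
  intro j
  by_cases h : j = i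
  · subst h; simp
  · simp [Pi.single_eq_of_ne h]

lemma dop_single (d : ι → ℝ) (i : ι) (a : ℂ) (h : (lp.single 2 i a : L2 ι) ∈ (dop d).domain) :
    dop d ⟨lp.single 2 i a, h⟩ = lp.single 2 i ((d i : ℂ) * a) := by
  ext j
  rw [dop_apply]
  by_cases h : j = i
  · subst h; simp
  · simp [Pi.single_eq_of_ne h]

lemma dop_dense (d : ι → ℝ) : Dense ((dop d).domain : Set (L2 ι)) := by
  intro x
  have h := lp.hasSum_single (p := 2) (by norm_num) x
  refine mem_closure_of_tendsto h (Eventually.of_forall fun s => ?_)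
  exact Submodule.sum_mem _ fun i _ => single_mem d i _

lemma dop_formalAdjoint (d : ι → ℝ) : (dop d).IsFormalAdjoint (dop d) := by
  intro x y
  rw [lp.inner_eq_tsum, lp.inner_eq_tsum]
  congr 1
  ext i
  rw [dop_apply, dop_apply]
  simp
  ring

lemma dop_selfAdjoint (d : ι → ℝ) : IsSelfAdjoint (dop d) := by
  rw [LinearPMap.isSelfAdjoint_def]
  symm
  have hle := LinearPMap.IsFormalAdjoint.le_adjoint (dop_dense d) (dop_formalAdjoint d)
  apply LinearPMap.eq_of_le_of_domain_eq hle
  apply le_antisymm hle.1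
  intro y hy
  set w := (dop d).adjoint ⟨y, hy⟩ with hw
  have key : ∀ x : (dop d).domain, ⟪w, (x : L2 ι)⟫_ℂ = ⟪y, dop d x⟫_ℂ := fun x =>
    LinearPMap.adjoint_isFormalAdjoint (dop_dense d) ⟨y, hy⟩ x
  apply mem_dop_of d y w
  intro i
  have h1 := key ⟨lp.single 2 i 1, single_mem d i 1⟩
  rw [dop_single, lp.inner_single_right, lp.inner_single_right] at h1
  have h2 := congrArg (starRingEnd ℂ) h1
  simpa using h2

lemma dop_nonneg (d : ι → ℝ) (hd : ∀ i, 0 ≤ d i) : Nonneg (dop d) := by
  intro x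
  rw [lp.inner_eq_tsum, Complex.re_tsum (lp.summable_inner _ _)]
  apply tsum_nonneg
  intro i
  rw [dop_apply]
  have : ⟪(d i : ℂ) * (x : L2 ι) i, (x : L2 ι) i⟫_ℂ = ((d i * ‖(x : L2 ι) i‖ ^ 2 : ℝ) : ℂ) := by
    simp only [RCLike.inner_apply, map_mul, Complex.conj_ofReal]
    rw [mul_comm, mul_assoc, Complex.conj_mul']
    push_cast
    ring
  rw [this, Complex.ofReal_re]
  exact mul_nonneg (hd i) (by positivity)

lemma dop_sqrt (d e : ι → ℝ) (he : ∀ i, 0 ≤ e i) (h : ∀ i, e i * e i = d i)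
    (hd : ∀ i, 1 ≤ d i) : IsSqrt (dop d) (dop e) where
  selfAdjoint := dop_selfAdjoint e
  nonneg := dop_nonneg e he
  mem_iff := by
    intro x
    constructor
    · intro hx
      have h1 : x ∈ (dop e).domain := by
        rw [mem_dop, memlp_iff]
        rw [mem_dop, memlp_iff] at hx
        refine Summable.of_nonneg_of_le (fun i => by positivity) (fun i => ?_) hx
        rw [norm_mul, norm_mul, Complex.norm_real, Complex.norm_real, Real.norm_of_nonneg (he i),
          Real.norm_of_nonneg (by linarith [hd i])]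
        have h2 : e i ≤ d i := by
          have := h i
          have := hd i
          nlinarith [he i]
        exact pow_le_pow_left₀ (mul_nonneg (he i) (norm_nonneg _))
          (mul_le_mul_of_nonneg_right h2 (norm_nonneg _)) 2
      refine ⟨h1, ?_⟩
      rw [mem_dop] at hx ⊢
      convert hx using 2
      rw [dop_apply, ← mul_assoc, ← h]
      push_cast
      ring
    · rintro ⟨h1, h2⟩
      rw [mem_dop] at h2 ⊢
      convert h2 using 2
      rw [dop_apply, ← mul_assoc, ← h]
      push_cast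
      ring
  apply_eq := by
    intro x hx h1 h2
    ext i
    rw [dop_apply, dop_apply, dop_apply, ← h]
    push_cast
    ring

lemma norm_dop_le (d : ι → ℝ) (x : (dop d).domain) {C : ℝ} (hC : 0 ≤ C)
    (h : ∀ i, (x : L2 ι) i ≠ 0 → |d i| ≤ C) : ‖dop d x‖ ≤ C * ‖(x : L2 ι)‖ := by
  have h1 : ‖dop d x‖ ≤ ‖(C : ℂ) • (x : L2 ι)‖ := by
    apply norm_le_of_coord
    intro i
    rw [dop_apply, lp.coeFn_smul, Pi.smul_apply, norm_mul, norm_smul, Complex.norm_real,
      Complex.norm_real, Real.norm_eq_abs, Real.norm_of_nonneg hC]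
    by_cases h0 : (x : L2 ι) i = 0
    · simp [h0]
    · exact mul_le_mul_of_nonneg_right (h i h0) (norm_nonneg _)
  rwa [norm_smul, Complex.norm_real, Real.norm_of_nonneg hC] at h1

/-- the standard Hilbert basis -/
noncomputable def stdB (ι : Type) : HilbertBasis ι ℂ (L2 ι) := ⟨LinearIsometryEquiv.refl ℂ _⟩

lemma dop_compactResolvent (d : ι → ℝ) (hd : ∀ i, 0 ≤ d i) (hlim : Tendsto d cofinite atTop) :
    Helper421.CompactRes.HasCompactResolvent (dop d) := by
  have hc : ∀ i, ‖-((1 : ℂ) + d i)⁻¹‖ ≤ 1 := by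
    intro i
    have : ((1 : ℂ) + d i) = ((1 + d i : ℝ) : ℂ) := by push_cast; ring
    rw [this, norm_neg, norm_inv, Complex.norm_real, Real.norm_eq_abs,
      abs_of_pos (by linarith [hd i])]
    exact inv_le_one_of_one_le₀ (by linarith [hd i])
  have hne : ∀ i, ((1 : ℂ) + d i) ≠ 0 := by
    intro i h
    have : ((1 + d i : ℝ) : ℂ) = 0 := by push_cast; exact h
    have h2 : (1 + d i : ℝ) = 0 := by exact_mod_cast this
    linarith [hd i]
  have hl : Tendsto (fun i => -((1 : ℂ) + d i)⁻¹) cofinite (𝓝 0) := by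
    have h3 : Tendsto (fun i => (1 + d i)⁻¹) cofinite (𝓝 0) :=
      tendsto_inv_atTop_zero.comp (tendsto_atTop_add_const_left _ 1 hlim)
    have h4 : Tendsto (fun i => -(((1 + d i)⁻¹ : ℝ) : ℂ)) cofinite (𝓝 (-((0 : ℝ) : ℂ))) :=
      ((Complex.continuous_ofReal.tendsto 0).comp h3).neg
    simpa using h4
  set R := Helper421.CompactRes.diag (stdB ι) (fun i => -((1 : ℂ) + d i)⁻¹) hc with hR
  have hRi : ∀ (u : L2 ι) (i : ι), (R u : L2 ι) i = -((1 : ℂ) + d i)⁻¹ * u i := by
    intro u i
    exact Helper421.CompactRes.diag_repr (stdB ι) _ hc u i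
  refine ⟨-1, R, Helper421.CompactRes.isCompact_diag _ _ hc hl, ?_, ?_⟩
  · intro u
    have hm : R u ∈ (dop d).domain := by
      apply mem_dop_of d _ (-u - R u)
      intro i
      have := hne i
      rw [lp.coeFn_sub, Pi.sub_apply, lp.coeFn_neg, Pi.neg_apply, hRi]
      field_simp
      ring
    refine ⟨hm, ?_⟩
    ext i
    have := hne i
    rw [lp.coeFn_sub, Pi.sub_apply, lp.coeFn_smul, Pi.smul_apply, dop_apply, hRi]
    simp only [smul_eq_mul]
    field_simp
    ring
  · intro f
    ext i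
    have := hne i
    rw [hRi, lp.coeFn_sub, Pi.sub_apply, lp.coeFn_smul, Pi.smul_apply, dop_apply]
    simp only [smul_eq_mul]
    field_simp
    ring

end Pool.Agent.W805.DW
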