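import Pool.Agent.W805.DWDiag

set_option autoImplicit false

open Filter Topology Set
open scoped InnerProductSpace ENNReal

namespace Pool.Agent.W805.DW

/-! ### The observation operator -/

/-- coordinate restriction `x ↦ (x (n, b))_n` -/
noncomputable def resL (b : Bool) : L2 (ℕ × Bool) →ₗ[ℂ] L2 ℕ where
  toFun x := ⟨fun n => x (n, b), by
    show Memℓp (fun n => x (n, b)) 2
    rw [memlp_iff]
    exact (summable_sq x).comp_injective (i := fun n : ℕ => (n, b)) (fun n m h => by simpa using h)⟩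
  map_add' x y := by ext n; simp
  map_smul' c x := by ext n; simp

lemma resL_apply (b : Bool) (x : L2 (ℕ × Bool)) (n : ℕ) : (resL b x : L2 ℕ) n = x (n, b) := rfl

lemma norm_sq_split (x : L2 (ℕ × Bool)) : ‖x‖ ^ 2 = ‖resL true x‖ ^ 2 + ‖resL false x‖ ^ 2 := by
  rw [norm_sq, norm_sq, norm_sq]
  have h := summable_sq x
  rw [h.tsum_prod' (fun n => Summable.of_finite)]
  rw [← Summable.tsum_add]
  · congr 1
    ext n
    rw [tsum_fintype]
    simp [resL_apply]
  · exact h.comp_injective (i := fun n : ℕ => (n, true)) (fun n m h => by simpa using h)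
  · exact h.comp_injective (i := fun n : ℕ => (n, false)) (fun n m h => by simpa using h)

/-- coordinate restriction as a bounded operator -/
noncomputable def res (b : Bool) : L2 (ℕ × Bool) →L[ℂ] L2 ℕ :=
  (resL b).mkContinuous 1 (fun x => by
    have h := norm_sq_split x
    have h1 : ‖resL b x‖ ^ 2 ≤ ‖x‖ ^ 2 := by
      cases b
      · nlinarith [sq_nonneg ‖resL true x‖]
      · nlinarith [sq_nonneg ‖resL false x‖]
    rw [one_mul]
    exact (sq_le_sq₀ (norm_nonneg _) (norm_nonneg _)).1 h1)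

lemma res_apply (b : Bool) (x : L2 (ℕ × Bool)) (n : ℕ) : (res b x : L2 ℕ) n = x (n, b) := rfl

/-- `G = B^*` -/
noncomputable def G : L2 (ℕ × Bool) →L[ℂ] L2 ℕ := (((Real.sqrt 2)⁻¹ : ℝ) : ℂ) • (res true + res false)

lemma G_apply (x : L2 (ℕ × Bool)) (n : ℕ) :
    (G x : L2 ℕ) n = (((Real.sqrt 2)⁻¹ : ℝ) : ℂ) * (x (n, true) + x (n, false)) := by
  simp only [G, smul_apply, add_apply, lp.coeFn_smul,
    Pi.smul_apply, lp.coeFn_add, Pi.add_apply, res_apply, smul_eq_mul]

/-- `B`, the adjoint of `G` -/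
noncomputable def B : L2 ℕ →L[ℂ] L2 (ℕ × Bool) := ContinuousLinearMap.adjoint G

lemma adjB : ContinuousLinearMap.adjoint B = G := by
  rw [B, ContinuousLinearMap.adjoint_adjoint]

lemma B_apply (y : L2 ℕ) (n : ℕ) (b : Bool) :
    (B y : L2 (ℕ × Bool)) (n, b) = (((Real.sqrt 2)⁻¹ : ℝ) : ℂ) * y n := by
  classical
  have h1 : ⟪B y, (lp.single 2 (n, b) (1 : ℂ) : L2 (ℕ × Bool))⟫_ℂ =
      ⟪y, G (lp.single 2 (n, b) (1 : ℂ))⟫_ℂ := by
    rw [B, ContinuousLinearMap.adjoint_inner_left]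
  have h2 : G (lp.single 2 (n, b) (1 : ℂ)) = lp.single 2 n ((((Real.sqrt 2)⁻¹ : ℝ) : ℂ)) := by
    ext m
    rw [G_apply]
    by_cases hm : m = n
    · subst hm
      cases b <;> simp [Pi.single_apply]
    · simp [Pi.single_apply, hm]
  rw [h2, lp.inner_single_right, lp.inner_single_right] at h1
  have h3 := congrArg (starRingEnd ℂ) h1
  simpa only [RCLike.inner_apply, map_mul, Complex.conj_conj, map_one, one_mul,
    Complex.conj_ofReal] using h3

lemma sqrt2_inv_sq : (((Real.sqrt 2)⁻¹ : ℝ) : ℂ) * (((Real.sqrt 2)⁻¹ : ℝ) : ℂ) = 1 / 2 := by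
  have h : (Real.sqrt 2)⁻¹ * (Real.sqrt 2)⁻¹ = 1 / 2 := by
    rw [← mul_inv, Real.mul_self_sqrt (by norm_num)]; norm_num
  rw [← Complex.ofReal_mul, h]
  push_cast; ring

lemma BG_apply (x : L2 (ℕ × Bool)) (n : ℕ) (b : Bool) :
    (B (G x) : L2 (ℕ × Bool)) (n, b) = (1 / 2) * (x (n, true) + x (n, false)) := by
  rw [B_apply, G_apply, ← mul_assoc, sqrt2_inv_sq]

/-! ### The operator `A` -/

/-- eigenvalues of `A`: `μ n ± 1` -/
def ev (μ : ℕ → ℝ) (i : ℕ × Bool) : ℝ := if i.2 then μ i.1 + 1 else μ i.1 - 1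

lemma ev_true (μ : ℕ → ℝ) (n : ℕ) : ev μ (n, true) = μ n + 1 := by simp [ev]
lemma ev_false (μ : ℕ → ℝ) (n : ℕ) : ev μ (n, false) = μ n - 1 := by simp [ev]

lemma ev_tendsto (μ : ℕ → ℝ) (h : Tendsto μ atTop atTop) : Tendsto (ev μ) cofinite atTop := by
  rw [tendsto_atTop]
  intro b
  rw [tendsto_atTop] at h
  have h1 := h (b + 1)
  rw [eventually_atTop] at h1
  obtain ⟨N, hN⟩ := h1
  rw [eventually_cofinite]
  apply Set.Finite.subset (s := (Set.Iio N) ×ˢ (Set.univ : Set Bool))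
  · exact (Set.finite_Iio N).prod Set.finite_univ
  · rintro ⟨n, c⟩ hnc
    simp only [mem_prod, mem_Iio, mem_univ, and_true]
    by_contra hcon
    push Not at hcon
    apply hnc
    have := hN n hcon
    cases c
    · rw [ev_false]; linarith
    · rw [ev_true]; linarith

/-! ### Observability -/

lemma coord_sol (d : ℕ × Bool → ℝ) (T : ℝ) (u : ℝ → L2 (ℕ × Bool))
    (hu : IsSchrodingerSol (dop d) T u) (i : ℕ × Bool) (t : ℝ) (ht : t ∈ Icc 0 T) :
    (u t) i = Complex.exp (-Complex.I * d i * t) * (u 0) i := by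
  classical
  have h0 : (0 : ℝ) ∈ Icc 0 T := ⟨le_rfl, ht.1.trans ht.2⟩
  have h1 : ∀ s ∈ Icc 0 T, HasDerivWithinAt (fun s => (u s) i)
      (-Complex.I * (d i * (u s) i)) (Icc 0 T) s := by
    intro s hs
    have := hu.2 ⟨lp.single 2 i 1, single_mem d i 1⟩ s hs
    rw [dop_single] at this
    simpa only [lp.inner_single_left, RCLike.inner_apply, map_one, mul_one, map_mul,
      Complex.conj_ofReal, mul_comm ((u s) i)] using this
  have h2 : ∀ s ∈ Icc 0 T, HasDerivWithinAt
      (fun s : ℝ => Complex.exp (Complex.I * d i * s) * (u s) i) 0 (Icc 0 T) s := by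
    intro s hs
    have e1 : HasDerivAt (fun s : ℝ => Complex.exp (Complex.I * d i * s))
        (Complex.exp (Complex.I * d i * s) * (Complex.I * d i)) s := by
      have e2 : HasDerivAt (fun s : ℝ => Complex.I * d i * (s : ℂ)) (Complex.I * d i * 1) s :=
        (Complex.ofRealCLM.hasDerivAt).const_mul _
      rw [mul_one] at e2
      exact e2.cexp
    have e3 := e1.hasDerivWithinAt.mul (h1 s hs)
    exact e3.congr_deriv (by ring)
  have h3 : Complex.exp (Complex.I * d i * t) * (u t) i =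
      Complex.exp (Complex.I * d i * (0 : ℝ)) * (u 0) i := by
    have hconv : Convex ℝ (Icc (0 : ℝ) T) := convex_Icc 0 T
    have hb := hconv.norm_image_sub_le_of_norm_hasDerivWithin_le (C := 0)
      (f := fun s : ℝ => Complex.exp (Complex.I * d i * s) * (u s) i) (f' := fun _ => 0)
      h2 (fun s hs => by simp) h0 ht
    simp only [zero_mul] at hb
    exact sub_eq_zero.1 (norm_le_zero_iff.1 hb)
  simp only [Complex.ofReal_zero, mul_zero, Complex.exp_zero, one_mul] at h3
  rw [← h3, ← mul_assoc, ← Complex.exp_add]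
  simp

lemma obs_norm (μ : ℕ → ℝ) (T : ℝ) (u : ℝ → L2 (ℕ × Bool))
    (hu : IsSchrodingerSol (dop (ev μ)) T u) (t : ℝ) (ht : t ∈ Icc 0 T) :
    ‖G (u t)‖ ^ 2 = (1 / 2) * (‖res true (u 0)‖ ^ 2 + ‖res false (u 0)‖ ^ 2 +
      2 * (Real.cos (2 * t) * (⟪res true (u 0), res false (u 0)⟫_ℂ).re -
        Real.sin (2 * t) * (⟪res true (u 0), res false (u 0)⟫_ℂ).im)) := by
  set p := res true (u 0) with hp
  set q := res false (u 0) with hq
  set w : L2 ℕ := (((Real.sqrt 2)⁻¹ : ℝ) : ℂ) • (Complex.exp (-Complex.I * t) • p +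
    Complex.exp (Complex.I * t) • q) with hw
  have h1 : ‖G (u t)‖ = ‖w‖ := by
    apply norm_eq_of_coord
    intro n
    have e1 : (G (u t) : L2 ℕ) n = Complex.exp (-Complex.I * μ n * t) * (w : L2 ℕ) n := by
      rw [G_apply, coord_sol _ T u hu _ t ht, coord_sol _ T u hu _ t ht, ev_true, ev_false]
      simp only [hw, lp.coeFn_smul, Pi.smul_apply, lp.coeFn_add, Pi.add_apply, smul_eq_mul, hp, hq,
        res_apply]
      have e2 : Complex.exp (-Complex.I * ((μ n + 1 : ℝ) : ℂ) * t) =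
          Complex.exp (-Complex.I * μ n * t) * Complex.exp (-Complex.I * t) := by
        rw [← Complex.exp_add]; congr 1; push_cast; ring
      have e3 : Complex.exp (-Complex.I * ((μ n - 1 : ℝ) : ℂ) * t) =
          Complex.exp (-Complex.I * μ n * t) * Complex.exp (Complex.I * t) := by
        rw [← Complex.exp_add]; congr 1; push_cast; ring
      rw [e2, e3]; ring
    rw [e1, norm_mul]
    have : ‖Complex.exp (-Complex.I * μ n * t)‖ = 1 := by
      rw [Complex.norm_exp]; simp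
    rw [this, one_mul]
  have hn1 : ‖Complex.exp (-Complex.I * t)‖ = 1 := by rw [Complex.norm_exp]; simp
  have hn2 : ‖Complex.exp (Complex.I * t)‖ = 1 := by rw [Complex.norm_exp]; simp
  rw [h1, hw, norm_smul, mul_pow, Complex.norm_real, Real.norm_eq_abs, sq_abs, inv_pow,
    Real.sq_sqrt (by norm_num)]
  have h2 := @norm_add_sq ℂ (L2 ℕ) _ _ _ (Complex.exp (-Complex.I * t) • p)
    (Complex.exp (Complex.I * t) • q)
  rw [h2, norm_smul, norm_smul, hn1, hn2, one_mul, one_mul, inner_smul_left, inner_smul_right]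
  have h3 : (starRingEnd ℂ) (Complex.exp (-Complex.I * t)) = Complex.exp (Complex.I * t) := by
    rw [← Complex.exp_conj]; congr 1; simp
  rw [h3, ← mul_assoc, ← Complex.exp_add]
  have h4 : Complex.exp (Complex.I * t + Complex.I * t) =
      (Real.cos (2 * t) : ℂ) + (Real.sin (2 * t) : ℂ) * Complex.I := by
    rw [Complex.ofReal_cos, Complex.ofReal_sin, ← Complex.exp_mul_I]
    congr 1; push_cast; ring
  rw [h4]
  have h5 : RCLike.re (((Real.cos (2 * t) : ℂ) + (Real.sin (2 * t) : ℂ) * Complex.I) * ⟪p, q⟫_ℂ) =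
      Real.cos (2 * t) * (⟪p, q⟫_ℂ).re - Real.sin (2 * t) * (⟪p, q⟫_ℂ).im := by
    show (((Real.cos (2 * t) : ℂ) + (Real.sin (2 * t) : ℂ) * Complex.I) * ⟪p, q⟫_ℂ).re = _
    rw [Complex.mul_re, Complex.add_re, Complex.add_im, Complex.mul_re, Complex.mul_im,
      Complex.ofReal_re, Complex.ofReal_im, Complex.ofReal_re, Complex.ofReal_im,
      Complex.I_re, Complex.I_im]
    ring
  rw [h5]
  ring

lemma observable (μ : ℕ → ℝ) : Observable (dop (ev μ)) B Real.pi := by
  refine ⟨2 / Real.pi, by positivity, fun u hu => ?_⟩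
  rw [adjB]
  have h1 : ∫ t in (0 : ℝ)..Real.pi, ‖G (u t)‖ ^ 2 = ∫ t in (0 : ℝ)..Real.pi,
      (1 / 2) * (‖res true (u 0)‖ ^ 2 + ‖res false (u 0)‖ ^ 2 +
      2 * (Real.cos (2 * t) * (⟪res true (u 0), res false (u 0)⟫_ℂ).re -
        Real.sin (2 * t) * (⟪res true (u 0), res false (u 0)⟫_ℂ).im)) := by
    apply intervalIntegral.integral_congr
    intro t ht
    rw [uIcc_of_le Real.pi_pos.le] at ht
    exact obs_norm μ Real.pi u hu t ht
  have h2 : ‖u 0‖ ^ 2 = ‖res true (u 0)‖ ^ 2 + ‖res false (u 0)‖ ^ 2 := norm_sq_split (u 0)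
  rw [h1, ← h2]
  set c := (⟪res true (u 0), res false (u 0)⟫_ℂ).re
  set s := (⟪res true (u 0), res false (u 0)⟫_ℂ).im
  have hder : ∀ t ∈ uIcc 0 Real.pi, HasDerivAt (fun t : ℝ => (1 / 2) * (‖u 0‖ ^ 2 * t +
      (Real.sin (2 * t) * c + Real.cos (2 * t) * s))) ((1 / 2) * (‖u 0‖ ^ 2 +
      2 * (Real.cos (2 * t) * c - Real.sin (2 * t) * s))) t := by
    intro t _
    have a1 : HasDerivAt (fun t : ℝ => 2 * t) (2 * 1) t := (hasDerivAt_id t).const_mul 2
    have a2 := a1.sin
    have a3 := a1.cos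
    have a4 := (((hasDerivAt_id t).const_mul (‖u 0‖ ^ 2)).add ((a2.mul_const c).add
      (a3.mul_const s))).const_mul (1 / 2)
    exact a4.congr_deriv (by ring)
  rw [intervalIntegral.integral_eq_sub_of_hasDerivAt hder]
  · have : Real.sin (2 * Real.pi) = 0 := Real.sin_two_pi
    rw [this, Real.cos_two_pi]
    simp
    have := Real.pi_pos
    field_simp
    linarith
  · apply Continuous.intervalIntegrable
    fun_prop

end Pool.Agent.W805.DW
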