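import Pool.Agent.W805.DWEx

set_option autoImplicit false

open Filter Topology Set
open scoped InnerProductSpace ENNReal

namespace Pool.Agent.W805.DW

/-! ### The parameters -/

/-- the damping `δ_n = 1/(8(n+1))` of the `n`-th mode -/
noncomputable def dl (n : ℕ) : ℝ := (8 * ((n : ℝ) + 1))⁻¹

/-- real part of `s` -/
noncomputable def aa (d : ℝ) : ℝ := -(2 * d ^ 2) / (1 - 4 * d)

/-- squared frequency -/
noncomputable def ww (d : ℝ) : ℝ := (1 - aa d ^ 2 + d * aa d) / (2 * d * (1 - 2 * d))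

/-- `μ = a + ω² - δ²` -/
noncomputable def mu (d : ℝ) : ℝ := aa d + ww d - d ^ 2

/-- `z = -δ + i ω` -/
noncomputable def zz (d : ℝ) : ℂ := -(d : ℂ) + Complex.I * (Real.sqrt (ww d) : ℂ)

/-- `s = a - 2 i δ ω` -/
noncomputable def ss (d : ℝ) : ℂ := (aa d : ℂ) - 2 * Complex.I * d * (Real.sqrt (ww d) : ℂ)

lemma dl_pos (n : ℕ) : 0 < dl n := by unfold dl; positivity

lemma dl_le (n : ℕ) : dl n ≤ 1 / 8 := by
  unfold dl
  rw [inv_le_comm₀ (by positivity) (by norm_num)]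
  have : (0 : ℝ) ≤ n := Nat.cast_nonneg n
  linarith

section
variable {d : ℝ} (h0 : 0 < d) (h1 : d ≤ 1 / 8)
include h0 h1

lemma aa_eq : aa d * (1 - 4 * d) = -(2 * d ^ 2) := by
  unfold aa
  exact div_mul_cancel₀ _ (by linarith)

lemma aa_nonpos : aa d ≤ 0 := by
  unfold aa
  apply div_nonpos_of_nonpos_of_nonneg <;> nlinarith

lemma aa_ge : -(1 / 16) ≤ aa d := by
  have h := aa_eq h0 h1
  have h2 : (0 : ℝ) < 1 - 4 * d := by linarith
  have h3 : -(1 / 16) * (1 - 4 * d) ≤ aa d * (1 - 4 * d) := by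
    rw [h]; nlinarith
  exact le_of_mul_le_mul_right h3 h2

lemma ww_eq : ww d * (2 * d * (1 - 2 * d)) = 1 - aa d ^ 2 + d * aa d := by
  unfold ww
  have h2 : (0 : ℝ) < 1 - 2 * d := by linarith
  exact div_mul_cancel₀ _ (by positivity)

lemma num_ge : (49 / 50 : ℝ) ≤ 1 - aa d ^ 2 + d * aa d := by
  have h2 := aa_nonpos h0 h1
  have h3 := aa_ge h0 h1
  nlinarith

lemma num_le : 1 - aa d ^ 2 + d * aa d ≤ 1 := by
  have h2 := aa_nonpos h0 h1
  nlinarith [sq_nonneg (aa d)]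

lemma ww_ge : 49 / 100 ≤ ww d * d := by
  have h := ww_eq h0 h1
  have h2 := num_ge h0 h1
  have h3 : 0 < ww d := by
    unfold ww
    apply div_pos (by linarith)
    have : (0 : ℝ) < 1 - 2 * d := by linarith
    positivity
  nlinarith [mul_pos h3 (mul_pos h0 h0)]

lemma ww_pos : 0 < ww d := by
  have h := ww_ge h0 h1
  by_contra hc
  push Not at hc
  nlinarith

lemma ww_le : ww d * d ≤ 2 / 3 := by
  have h := ww_eq h0 h1
  have h2 := num_le h0 h1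
  have h3 := ww_pos h0 h1
  have h4 : 0 < ww d * d := by positivity
  nlinarith

lemma mu_ge : 2 ≤ mu d := by
  have h2 := aa_ge h0 h1
  have h3 := ww_ge h0 h1
  have h4 : 49 / 100 * 8 ≤ ww d := by
    have := ww_pos h0 h1
    nlinarith
  unfold mu
  nlinarith

lemma mu_lower : 49 / 100 * d⁻¹ - 1 ≤ mu d := by
  have h2 := aa_ge h0 h1
  have h3 := ww_ge h0 h1
  have h4 : 49 / 100 * d⁻¹ ≤ ww d := by
    rw [← div_eq_mul_inv, div_le_iff₀ h0]; exact h3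
  unfold mu
  nlinarith

lemma mu_upper : mu d ≤ 2 / 3 * d⁻¹ := by
  have h2 := aa_nonpos h0 h1
  have h3 := ww_le h0 h1
  have h4 : ww d ≤ 2 / 3 * d⁻¹ := by
    rw [← div_eq_mul_inv, le_div_iff₀ h0]; exact h3
  unfold mu
  nlinarith

lemma sqrt_sq : (Real.sqrt (ww d) : ℂ) ^ 2 = (ww d : ℂ) := by
  rw [← Complex.ofReal_pow, Real.sq_sqrt (ww_pos h0 h1).le]

lemma zz_sq : zz d ^ 2 + (mu d : ℂ) = ss d := by
  have h := sqrt_sq h0 h1
  have hI : Complex.I ^ 2 = -1 := Complex.I_sq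
  have : zz d ^ 2 = (d : ℂ) ^ 2 - 2 * Complex.I * d * (Real.sqrt (ww d) : ℂ) +
      Complex.I ^ 2 * (Real.sqrt (ww d) : ℂ) ^ 2 := by
    unfold zz; ring
  rw [this, h, hI]
  unfold mu ss
  push_cast
  ring

lemma ss_eq : ss d * (ss d + zz d) = 1 := by
  have h := sqrt_sq h0 h1
  have hI : Complex.I ^ 2 = -1 := Complex.I_sq
  have e1 : ((aa d * (1 - 4 * d) : ℝ) : ℂ) = ((-(2 * d ^ 2) : ℝ) : ℂ) := by rw [aa_eq h0 h1]
  have e2 : ((ww d * (2 * d * (1 - 2 * d)) : ℝ) : ℂ) = ((1 - aa d ^ 2 + d * aa d : ℝ) : ℂ) := by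
    rw [ww_eq h0 h1]
  push_cast at e1 e2
  have : ss d * (ss d + zz d) = ((aa d : ℂ) ^ 2 - d * aa d) +
      (4 * (d : ℂ) ^ 2 - 2 * d) * (Complex.I ^ 2 * (Real.sqrt (ww d) : ℂ) ^ 2) +
      Complex.I * (Real.sqrt (ww d) : ℂ) * (aa d * (1 - 4 * d) + 2 * d ^ 2) := by
    unfold zz ss; ring
  rw [this, h, hI, e1]
  linear_combination e2

lemma zz_re : (zz d).re = -d := by
  unfold zz; simp

lemma zz_normsq : ‖zz d‖ ^ 2 = d ^ 2 + ww d := by
  rw [← Complex.normSq_eq_norm_sq, Complex.normSq_apply]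
  have h1' : (zz d).re = -d := zz_re h0 h1
  have h2 : (zz d).im = Real.sqrt (ww d) := by unfold zz; simp
  rw [h1', h2, Real.mul_self_sqrt (ww_pos h0 h1).le]
  ring

lemma zz_norm_ge : 1 ≤ ‖zz d‖ := by
  have h := zz_normsq h0 h1
  have h3 := ww_ge h0 h1
  have h4 : 49 / 100 * 8 ≤ ww d := by
    have := ww_pos h0 h1
    nlinarith
  by_contra hc
  push Not at hc
  nlinarith [norm_nonneg (zz d)]

lemma total_le : mu d + 2 + ‖zz d‖ ^ 2 ≤ 2 * d⁻¹ := by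
  rw [zz_normsq h0 h1]
  have h2 := mu_upper h0 h1
  have h3 := ww_le h0 h1
  have h4 : ww d ≤ 2 / 3 * d⁻¹ := by
    rw [← div_eq_mul_inv, le_div_iff₀ h0]; exact h3
  have h5 : 8 ≤ d⁻¹ := by
    rw [le_inv_comm₀ (by norm_num) h0]; linarith
  nlinarith

end

/-- the sequence `μ_n` -/
noncomputable def mus (n : ℕ) : ℝ := mu (dl n)

lemma mus_tendsto : Tendsto mus atTop atTop := by
  have h1 : Tendsto (fun n : ℕ => 49 / 100 * (dl n)⁻¹ - 1) atTop atTop := by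
    unfold dl
    simp only [inv_inv]
    apply tendsto_atTop_add_const_right
    apply Tendsto.const_mul_atTop (by norm_num)
    apply Tendsto.const_mul_atTop (by norm_num)
    exact tendsto_atTop_add_const_right _ _ tendsto_natCast_atTop_atTop
  exact tendsto_atTop_mono (fun n => mu_lower (dl_pos n) (dl_le n)) h1

lemma ev_ge (i : ℕ × Bool) : 1 ≤ ev mus i := by
  have h := mu_ge (dl_pos i.1) (dl_le i.1)
  have h' : 2 ≤ mus i.1 := h
  unfold ev
  split_ifs <;> linarith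

/-- `A` -/
noncomputable def AA : L2 (ℕ × Bool) →ₗ.[ℂ] L2 (ℕ × Bool) := dop (ev mus)

/-- `A^{1/2}` -/
noncomputable def SS : L2 (ℕ × Bool) →ₗ.[ℂ] L2 (ℕ × Bool) := dop (fun i => Real.sqrt (ev mus i))

lemma SS_isSqrt : IsSqrt AA SS :=
  dop_sqrt _ _ (fun i => Real.sqrt_nonneg _)
    (fun i => Real.mul_self_sqrt (zero_le_one.trans (ev_ge i))) ev_ge

/-! ### The eigenvectors -/

/-- the eigenvector in the block `n` -/
noncomputable def wv (n : ℕ) : L2 (ℕ × Bool) :=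
  lp.single 2 (n, true) (1 - ss (dl n)) + lp.single 2 (n, false) (-(1 + ss (dl n)))

lemma wv_true (n : ℕ) : (wv n : L2 (ℕ × Bool)) (n, true) = 1 - ss (dl n) := by
  simp [wv, Pi.single_apply]

lemma wv_false (n : ℕ) : (wv n : L2 (ℕ × Bool)) (n, false) = -(1 + ss (dl n)) := by
  simp [wv, Pi.single_apply]

lemma wv_ne (n m : ℕ) (b : Bool) (h : m ≠ n) : (wv n : L2 (ℕ × Bool)) (m, b) = 0 := by
  simp [wv, Pi.single_apply, h]

lemma wv_mem (n : ℕ) (d : ℕ × Bool → ℝ) : wv n ∈ (dop d).domain :=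
  Submodule.add_mem _ (single_mem d _ _) (single_mem d _ _)

lemma wv_ne_zero (n : ℕ) : wv n ≠ 0 := by
  intro h
  have h1 := wv_true n
  have h2 := wv_false n
  rw [h] at h1 h2
  simp only [lp.coeFn_zero, Pi.zero_apply] at h1 h2
  have h3 : (2 : ℂ) = 0 := by linear_combination h2 - h1
  norm_num at h3

lemma AA_wv (n : ℕ) (i : ℕ × Bool) :
    (AA ⟨wv n, wv_mem n _⟩ : L2 (ℕ × Bool)) i = (ev mus i : ℂ) * wv n i := rfl

lemma wv_eq (n : ℕ) : (zz (dl n)) ^ 2 • wv n =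
    -(AA ⟨wv n, wv_mem n _⟩) - zz (dl n) • B (G (wv n)) := by
  have e1 := zz_sq (dl_pos n) (dl_le n)
  have e2 := ss_eq (dl_pos n) (dl_le n)
  ext ⟨m, b⟩
  rw [lp.coeFn_sub, Pi.sub_apply, lp.coeFn_neg, Pi.neg_apply, lp.coeFn_smul, lp.coeFn_smul,
    Pi.smul_apply, Pi.smul_apply, BG_apply, AA_wv, smul_eq_mul, smul_eq_mul]
  by_cases hm : m = n
  · subst hm
    cases b
    · rw [wv_true, wv_false, ev_false]
      have e3 : ((mus m - 1 : ℝ) : ℂ) = (mu (dl m) : ℂ) - 1 := by unfold mus; push_cast; ring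
      rw [e3]
      linear_combination (-(1 + ss (dl m))) * e1 - e2
    · rw [wv_true, wv_false, ev_true]
      have e3 : ((mus m + 1 : ℝ) : ℂ) = (mu (dl m) : ℂ) + 1 := by unfold mus; push_cast; ring
      rw [e3]
      linear_combination (1 - ss (dl m)) * e1 - e2
  · rw [wv_ne _ _ _ hm, wv_ne _ _ _ hm, wv_ne _ _ _ hm]
    simp

/-- the eigenvector as an element of `D(A^{1/2})` -/
noncomputable def wS (n : ℕ) : SS.domain := ⟨wv n, wv_mem n _⟩

lemma norm_SwS (n : ℕ) : ‖SS (wS n)‖ ^ 2 ≤ (mus n + 1) * ‖wv n‖ ^ 2 := by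
  have hpos : 0 ≤ mus n + 1 := by
    have := mu_ge (dl_pos n) (dl_le n)
    have : 2 ≤ mus n := this
    linarith
  have h := norm_dop_le (fun i => Real.sqrt (ev mus i)) (wS n) (C := Real.sqrt (mus n + 1))
    (Real.sqrt_nonneg _) (by
      rintro ⟨m, b⟩ hne
      have hm : m = n := by
        by_contra hm
        exact hne (wv_ne n m b hm)
      subst hm
      rw [abs_of_nonneg (Real.sqrt_nonneg _)]
      apply Real.sqrt_le_sqrt
      cases b
      · rw [ev_false]; linarith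
      · rw [ev_true])
  calc ‖SS (wS n)‖ ^ 2 ≤ (Real.sqrt (mus n + 1) * ‖wv n‖) ^ 2 :=
        pow_le_pow_left₀ (norm_nonneg _) h 2
    _ = (mus n + 1) * ‖wv n‖ ^ 2 := by rw [mul_pow, Real.sq_sqrt hpos]

/-! ### The solutions `e^{zt} w` -/

lemma dsol {E : Type} [NormedAddCommGroup E] [NormedSpace ℂ E] (z c : ℂ) (w : E) (t : ℝ) :
    HasDerivAt (fun s : ℝ => (c * Complex.exp (z * s)) • w) ((z * (c * Complex.exp (z * t))) • w) t := by
  have e2 : HasDerivAt (fun s : ℝ => z * (s : ℂ)) (z * 1) t :=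
    (Complex.ofRealCLM.hasDerivAt).const_mul _
  rw [mul_one] at e2
  have e3 := (e2.cexp.const_mul c).smul_const w
  exact e3.congr_deriv (by congr 1; ring)

/-- `u(t) = e^{zt} w` -/
noncomputable def uu (n : ℕ) (t : ℝ) : SS.domain := (1 * Complex.exp (zz (dl n) * t)) • wS n

/-- `v(t) = z e^{zt} w` -/
noncomputable def vv (n : ℕ) (t : ℝ) : SS.domain :=
  (zz (dl n) * Complex.exp (zz (dl n) * t)) • wS n

lemma AA_smul (n : ℕ) (c : ℂ) (h : c • wv n ∈ AA.domain) :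
    AA ⟨c • wv n, h⟩ = c • AA ⟨wv n, wv_mem n _⟩ :=
  AA.map_smul c ⟨wv n, wv_mem n _⟩

lemma uu_dom (n : ℕ) (t : ℝ) : (uu n t : L2 (ℕ × Bool)) ∈ AA.domain :=
  Submodule.smul_mem _ _ (wv_mem n _)

lemma isSol (n : ℕ) : IsWaveSol AA SS B (uu n) (vv n) where
  dom := fun t _ => uu_dom n t
  du := by
    intro t _
    have := dsol (zz (dl n)) 1 (wv n) t
    exact (this.congr_deriv (by
      show (zz (dl n) * (1 * Complex.exp (zz (dl n) * t))) • wv n =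
        (zz (dl n) * Complex.exp (zz (dl n) * t)) • wv n
      congr 1; ring)).hasDerivWithinAt
  dSu := by
    intro t _
    have := dsol (zz (dl n)) 1 (SS (wS n)) t
    have h2 : (fun s : ℝ => SS (uu n s)) =
        fun s : ℝ => (1 * Complex.exp (zz (dl n) * s)) • SS (wS n) := by
      funext s
      exact SS.map_smul _ _
    rw [h2]
    refine (this.congr_deriv ?_).hasDerivWithinAt
    have h3 : SS (vv n t) = (zz (dl n) * Complex.exp (zz (dl n) * t)) • SS (wS n) :=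
      SS.map_smul _ _
    rw [h3]
    congr 1; ring
  dv := by
    intro t ht
    have := dsol (zz (dl n)) (zz (dl n)) (wv n) t
    refine (this.congr_deriv ?_).hasDerivWithinAt
    have h1 : AA ⟨(uu n t : L2 (ℕ × Bool)), uu_dom n t⟩ =
        (1 * Complex.exp (zz (dl n) * t)) • AA ⟨wv n, wv_mem n _⟩ := AA_smul n _ _
    rw [h1, adjB]
    have h2 : ((vv n t : SS.domain) : L2 (ℕ × Bool)) =
        (zz (dl n) * Complex.exp (zz (dl n) * t)) • wv n := rfl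
    rw [h2, map_smul, map_smul]
    have h3 := congrArg (fun x => Complex.exp (zz (dl n) * t) • x) (wv_eq n)
    simp only [smul_smul, smul_sub, smul_neg] at h3
    rw [one_mul, mul_comm (zz (dl n)) (Complex.exp _), ← h3]
    congr 1; ring

lemma graph_eq (n : ℕ) : graphNrm AA SS B (uu n 0) (uu_dom n 0) (vv n 0) =
    (1 + ‖zz (dl n)‖) * Real.sqrt (‖SS (wS n)‖ ^ 2 + ‖wv n‖ ^ 2 + ‖zz (dl n)‖ ^ 2 * ‖wv n‖ ^ 2) := by
  have hu : uu n 0 = wS n := by
    simp [uu]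
  have hv : vv n 0 = zz (dl n) • wS n := by
    simp [vv]
  have hu' : (uu n 0 : L2 (ℕ × Bool)) = wv n := by rw [hu]; rfl
  have hA : AA ⟨(uu n 0 : L2 (ℕ × Bool)), uu_dom n 0⟩ = AA ⟨wv n, wv_mem n _⟩ := by
    congr 1
    exact Subtype.ext hu'
  have hv' : ((vv n 0 : SS.domain) : L2 (ℕ × Bool)) = zz (dl n) • wv n := by rw [hv]; rfl
  have hd : -(AA ⟨(uu n 0 : L2 (ℕ × Bool)), uu_dom n 0⟩) -
      B (ContinuousLinearMap.adjoint B (vv n 0 : L2 (ℕ × Bool))) = zz (dl n) ^ 2 • wv n := by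
    rw [hA, adjB, hv', map_smul, map_smul, wv_eq]
  have hSv : SS (vv n 0) = zz (dl n) • SS (wS n) := by rw [hv]; exact SS.map_smul _ _
  unfold graphNrm
  rw [hd]
  unfold nrm
  rw [hSv, hv', hu', hu, norm_smul, norm_smul, norm_smul, norm_pow]
  have : (‖zz (dl n)‖ * ‖SS (wS n)‖) ^ 2 + (‖zz (dl n)‖ * ‖wv n‖) ^ 2 +
      (‖zz (dl n)‖ ^ 2 * ‖wv n‖) ^ 2 =
      ‖zz (dl n)‖ ^ 2 * (‖SS (wS n)‖ ^ 2 + ‖wv n‖ ^ 2 + ‖zz (dl n)‖ ^ 2 * ‖wv n‖ ^ 2) := by ring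
  rw [this, Real.sqrt_mul (by positivity), Real.sqrt_sq (norm_nonneg _), mul_pow]
  ring

lemma semi_ge (n : ℕ) (t : ℝ) :
    ‖zz (dl n)‖ * Real.exp (-(dl n * t)) * ‖wv n‖ ≤ semi SS (uu n t) (vv n t : L2 (ℕ × Bool)) := by
  have hv' : ((vv n t : SS.domain) : L2 (ℕ × Bool)) =
      (zz (dl n) * Complex.exp (zz (dl n) * t)) • wv n := rfl
  unfold semi
  rw [hv', norm_smul, norm_mul, Complex.norm_exp]
  have : (zz (dl n) * (t : ℂ)).re = -(dl n * t) := by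
    rw [Complex.re_mul_ofReal, zz_re (dl_pos n) (dl_le n)]; ring
  rw [this]
  apply Real.le_sqrt_of_sq_le
  have := sq_nonneg ‖SS (uu n t)‖
  linarith

lemma key_ineq (f : ℝ → ℝ) (C : ℝ)
    (h : ∀ (u v : ℝ → SS.domain) (h : IsWaveSol AA SS B u v), ∀ t : ℝ, 0 < t →
    semi SS (u t) (v t : L2 (ℕ × Bool)) ≤ C * f t * graphNrm AA SS B (u 0) (h.dom 0 le_rfl) (v 0))
    (n : ℕ) : Real.exp (-1) ≤ 4 * |C| * |f (dl n)⁻¹ * Real.sqrt (dl n)⁻¹| := by
  have hd := dl_pos n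
  have hd' := dl_le n
  have hw : 0 < ‖wv n‖ := norm_pos_iff.2 (wv_ne_zero n)
  have hz := zz_norm_ge hd hd'
  have h1 := h (uu n) (vv n) (isSol n) (dl n)⁻¹ (by positivity)
  have h2 := semi_ge n (dl n)⁻¹
  have hg : graphNrm AA SS B (uu n 0) ((isSol n).dom 0 le_rfl) (vv n 0) =
    (1 + ‖zz (dl n)‖) * Real.sqrt (‖SS (wS n)‖ ^ 2 + ‖wv n‖ ^ 2 + ‖zz (dl n)‖ ^ 2 * ‖wv n‖ ^ 2) :=
    graph_eq n
  rw [hg] at h1
  rw [mul_inv_cancel₀ hd.ne'] at h2
  have h3 : Real.sqrt (‖SS (wS n)‖ ^ 2 + ‖wv n‖ ^ 2 + ‖zz (dl n)‖ ^ 2 * ‖wv n‖ ^ 2) ≤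
      Real.sqrt 2 * Real.sqrt (dl n)⁻¹ * ‖wv n‖ := by
    rw [← Real.sqrt_mul (by norm_num)]
    apply Real.sqrt_le_iff.2
    refine ⟨by positivity, ?_⟩
    rw [mul_pow, Real.sq_sqrt (by positivity)]
    have h4 := norm_SwS n
    have h5 := total_le hd hd'
    have h6 : mus n = mu (dl n) := rfl
    rw [h6] at h4
    have h7 := mul_le_mul_of_nonneg_right h5 (sq_nonneg ‖wv n‖)
    linarith
  have h8 : ‖zz (dl n)‖ * Real.exp (-1) * ‖wv n‖ ≤
      |C| * |f (dl n)⁻¹| * ((2 * ‖zz (dl n)‖) * (2 * Real.sqrt (dl n)⁻¹ * ‖wv n‖)) := by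
    refine h2.trans (h1.trans ?_)
    have h9 : C * f (dl n)⁻¹ ≤ |C| * |f (dl n)⁻¹| := by
      rw [← abs_mul]; exact le_abs_self _
    have h10 : Real.sqrt 2 ≤ 2 := by
      rw [Real.sqrt_le_left (by norm_num)]; norm_num
    calc _ ≤ |C| * |f (dl n)⁻¹| * ((1 + ‖zz (dl n)‖) *
          Real.sqrt (‖SS (wS n)‖ ^ 2 + ‖wv n‖ ^ 2 + ‖zz (dl n)‖ ^ 2 * ‖wv n‖ ^ 2)) :=
          mul_le_mul_of_nonneg_right h9 (by positivity)
      _ ≤ _ := by
          apply mul_le_mul_of_nonneg_left _ (by positivity)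
          apply mul_le_mul (by linarith) (h3.trans _) (Real.sqrt_nonneg _) (by positivity)
          gcongr
  rw [abs_mul, abs_of_nonneg (Real.sqrt_nonneg _)]
  have h11 : 0 < ‖zz (dl n)‖ * ‖wv n‖ := by positivity
  apply le_of_mul_le_mul_right _ h11
  calc Real.exp (-1) * (‖zz (dl n)‖ * ‖wv n‖) = ‖zz (dl n)‖ * Real.exp (-1) * ‖wv n‖ := by ring
    _ ≤ _ := h8
    _ = _ := by ring

lemma dl_inv_tendsto : Tendsto (fun n : ℕ => (dl n)⁻¹) atTop atTop := by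
  unfold dl
  simp only [inv_inv]
  apply Tendsto.const_mul_atTop (by norm_num)
  exact tendsto_atTop_add_const_right _ _ tendsto_natCast_atTop_atTop

lemma notStable (f : ℝ → ℝ) (hf : Tendsto (fun t => f t * Real.sqrt t) atTop (𝓝 0)) :
    ¬ StableAt AA SS B f := by
  rintro ⟨C, hC⟩
  have h1 := key_ineq f C hC
  have h2 : Tendsto (fun n : ℕ => 4 * |C| * |f (dl n)⁻¹ * Real.sqrt (dl n)⁻¹|) atTop
      (𝓝 (4 * |C| * |0|)) := ((hf.comp dl_inv_tendsto).abs).const_mul _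
  rw [abs_zero, mul_zero] at h2
  have h3 := ge_of_tendsto' h2 h1
  exact absurd h3 (not_le.2 (Real.exp_pos _))

end Pool.Agent.W805.DW
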